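import Pool.Agent.CH.Defs

/-! MP_d8d446_co, helper module: two counting lemmas for the edges of one colour in one part. -/

set_option autoImplicit false

open Finset

namespace CH

variable {α β : Type} [Fintype α] [Fintype β] [DecidableEq α] [DecidableEq β]

omit [DecidableEq β] [DecidableEq α] in
/-- the edges are partitioned by colour and part, general form -/
theorem sum_edges' {γ : Type} [Fintype γ] (R : α → β → Prop) (col : α → β → γ) (p : α → ℕ)
    (g : α × β → ℝ) :
    ∑ c : γ, ∑ i ∈ univ.image p, ∑ e ∈ Eci R col p c i, g e =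
      ∑ a, ∑ b, ind R a b * g (a, b) := by
  classical
  have h1 : ∀ c : γ, ∑ i ∈ univ.image p, ∑ e ∈ Eci R col p c i, g e =
      ∑ e ∈ univ.filter (fun e : α × β => R e.1 e.2 ∧ col e.1 e.2 = c), g e := by
    intro c
    rw [← Finset.sum_fiberwise_of_maps_to (t := univ.image p) (g := fun e : α × β => p e.1)
      (fun e _ => Finset.mem_image_of_mem p (Finset.mem_univ e.1))]
    refine Finset.sum_congr rfl fun i _ => ?_
    congr 1
    ext e
    simp [Eci, and_assoc]
  have h2 : ∑ c : γ, ∑ e ∈ univ.filter (fun e : α × β => R e.1 e.2 ∧ col e.1 e.2 = c), g e =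
      ∑ e ∈ univ.filter (fun e : α × β => R e.1 e.2), g e := by
    rw [← Finset.sum_fiberwise (univ.filter (fun e : α × β => R e.1 e.2))
      (fun e : α × β => col e.1 e.2) g]
    refine Finset.sum_congr rfl fun c _ => ?_
    congr 1
    ext e
    simp
  rw [Finset.sum_congr rfl fun c _ => h1 c, h2, Finset.sum_filter, ← Fintype.sum_prod_type']
  refine Finset.sum_congr rfl fun e _ => ?_
  by_cases h : R e.1 e.2
  · simp [h, ind]
  · simp [h, ind]

omit [DecidableEq β] [DecidableEq α] in
/-- the edges are partitioned by colour and part -/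
theorem sum_edges {γ : Type} [Fintype γ] (R : α → β → Prop) (col : α → β → γ) (p : α → ℕ)
    (f : α → β → ℝ) :
    ∑ c : γ, ∑ i ∈ univ.image p, ∑ e ∈ Eci R col p c i, f e.1 e.2 =
      ∑ a, ∑ b, ind R a b * f a b :=
  sum_edges' R col p fun e => f e.1 e.2

omit [DecidableEq β] [DecidableEq α] in
/-- (2.3): `V i` is the part with label `i` -/
theorem count_err {γ : Type} [Fintype γ] {R : α → β → Prop} {col : α → β → γ} (hg : Good R col)
    (p : α → ℕ) (f : α → β → ℝ) (hf : ∀ a b, 0 ≤ f a b) :
    ∑ c : γ, ∑ i ∈ univ.image p, (∑ e ∈ Eci R col p c i, ∑ e' ∈ Eci R col p c i, f e.1 e'.2) /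
      ((univ.filter fun a => p a = i).card : ℝ) ≤ ∑ a, ∑ b, f a b := by
  classical
  -- one colour and one part: each vertex of the part has at most one edge of the colour
  have h1 : ∀ (c : γ) (i : ℕ), ∑ e ∈ Eci R col p c i, ∑ e' ∈ Eci R col p c i, f e.1 e'.2 ≤
      ∑ e' ∈ Eci R col p c i, ∑ a ∈ univ.filter (fun a => p a = i), f a e'.2 := by
    intro c i
    rw [Finset.sum_comm]
    refine Finset.sum_le_sum fun e' _ => ?_
    have hinj : Set.InjOn (fun e : α × β => e.1) (Eci R col p c i : Set (α × β)) := by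
      intro e he e₁ he₁ hh
      have he := mem_Eci.1 (Finset.mem_coe.1 he)
      have he₁ := mem_Eci.1 (Finset.mem_coe.1 he₁)
      have hh : e.1 = e₁.1 := hh
      refine Prod.ext hh (hg.left e.1 e.2 e₁.2 he.1 ?_ ?_)
      · rw [hh]; exact he₁.1
      · rw [he.2.1, hh, he₁.2.1]
    rw [← Finset.sum_image (f := fun a => f a e'.2) (g := fun e : α × β => e.1) hinj]
    refine Finset.sum_le_sum_of_subset_of_nonneg ?_ fun a _ _ => hf _ _
    intro a ha
    obtain ⟨e, he, rfl⟩ := Finset.mem_image.1 ha
    exact Finset.mem_filter.2 ⟨Finset.mem_univ _, (mem_Eci.1 he).2.2⟩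
  have h2 : ∀ (c : γ) (i : ℕ),
      (∑ e ∈ Eci R col p c i, ∑ e' ∈ Eci R col p c i, f e.1 e'.2) /
        ((univ.filter fun a => p a = i).card : ℝ) ≤
      ∑ e' ∈ Eci R col p c i, (∑ a ∈ univ.filter (fun a => p a = p e'.1), f a e'.2) /
        ((univ.filter fun a => p a = p e'.1).card : ℝ) := by
    intro c i
    refine (div_le_div_of_nonneg_right (h1 c i) (Nat.cast_nonneg _)).trans (le_of_eq ?_)
    rw [Finset.sum_div]
    refine Finset.sum_congr rfl fun e' he' => ?_
    rw [(mem_Eci.1 he').2.2]
  refine (Finset.sum_le_sum fun c _ => Finset.sum_le_sum fun i _ => h2 c i).trans ?_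
  rw [sum_edges' R col p (fun e' : α × β =>
    (∑ a ∈ univ.filter (fun a => p a = p e'.1), f a e'.2) /
        ((univ.filter fun a => p a = p e'.1).card : ℝ))]
  -- drop the edge indicator
  have h3 : ∑ a, ∑ b, ind R a b * ((∑ a' ∈ univ.filter (fun a' => p a' = p a), f a' b) /
        ((univ.filter fun a' => p a' = p a).card : ℝ)) ≤
      ∑ a, ∑ b, ((∑ a' ∈ univ.filter (fun a' => p a' = p a), f a' b) /
        ((univ.filter fun a' => p a' = p a).card : ℝ)) := by
    refine Finset.sum_le_sum fun a _ => Finset.sum_le_sum fun b _ => ?_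
    refine mul_le_of_le_one_left ?_ (ind_le_one R a b)
    exact div_nonneg (Finset.sum_nonneg fun a' _ => hf _ _) (Nat.cast_nonneg _)
  refine h3.trans (le_of_eq ?_)
  rw [Finset.sum_comm, Finset.sum_comm (f := fun a b => f a b)]
  refine Finset.sum_congr rfl fun b _ => ?_
  -- averaging over parts keeps the sum
  rw [← Finset.sum_fiberwise_of_maps_to (s := (univ : Finset α)) (t := univ.image p) (g := p)
      (fun a _ => Finset.mem_image_of_mem p (Finset.mem_univ a)),
    ← Finset.sum_fiberwise_of_maps_to (s := (univ : Finset α)) (t := univ.image p) (g := p)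
      (fun a _ => Finset.mem_image_of_mem p (Finset.mem_univ a)) (f := fun a => f a b)]
  refine Finset.sum_congr rfl fun i hi => ?_
  obtain ⟨a₀, _, ha₀⟩ := Finset.mem_image.1 hi
  have hpos : ((univ.filter fun a => p a = i).card : ℝ) ≠ 0 := by
    have : 0 < (univ.filter fun a => p a = i).card :=
      Finset.card_pos.2 ⟨a₀, Finset.mem_filter.2 ⟨Finset.mem_univ _, ha₀⟩⟩
    exact_mod_cast this.ne'
  have h4 : ∀ a ∈ univ.filter (fun a => p a = i),
      (∑ a' ∈ univ.filter (fun a' => p a' = p a), f a' b) /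
        ((univ.filter fun a' => p a' = p a).card : ℝ) =
      (∑ a' ∈ univ.filter (fun a' => p a' = i), f a' b) /
        ((univ.filter fun a' => p a' = i).card : ℝ) := by
    intro a ha
    rw [(Finset.mem_filter.1 ha).2]
  rw [Finset.sum_congr rfl h4, Finset.sum_const, nsmul_eq_mul]
  field_simp

end CH
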