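import Pool.Agent.CH.Energy75

/-! MP_d8d446_co, helper module: pairs of edges of one colour in one part. -/

set_option autoImplicit false

open Finset

namespace CH

variable {α β : Type} [Fintype α] [Fintype β]

/-- (2.1) -/
theorem count_cross {γ : Type} {R : α → β → Prop} {col : α → β → γ} (hg : Good R col)
    (p : α → ℕ) (c : γ) (i : ℕ) :
    ∑ e ∈ Eci R col p c i, ∑ e' ∈ Eci R col p c i, ind R e.1 e'.2 ≤
      ((Eci R col p c i).card : ℝ) * ((Eci R col p c i).card + 1) / 2 := by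
  classical
  set E := Eci R col p c i with hE
  have key : ∀ e ∈ E, ∀ e' ∈ E, ind R e.1 e'.2 + ind R e'.1 e.2 ≤
      1 + if e = e' then (1 : ℝ) else 0 := by
    intro e he e' he'
    obtain ⟨h1, h2, -⟩ := mem_Eci.1 he
    obtain ⟨h1', h2', -⟩ := mem_Eci.1 he'
    by_cases hee : e = e'
    · rw [if_pos hee]
      have := ind_le_one R e.1 e'.2
      have := ind_le_one R e'.1 e.2
      linarith
    · rw [if_neg hee]
      have ha : e.1 ≠ e'.1 := by
        intro h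
        apply hee
        refine Prod.ext h (hg.left e.1 e.2 e'.2 h1 (h ▸ h1') ?_)
        rw [h2, h, h2']
      have hb : e.2 ≠ e'.2 := by
        intro h
        apply hee
        refine Prod.ext (hg.right e.1 e'.1 e.2 h1 (h ▸ h1') ?_) h
        rw [h2, h, h2']
      have hf := hg.fool e.1 e'.1 e.2 e'.2 ha hb h1 h1' (by rw [h2, h2'])
      have hu := ind_le_one R e.1 e'.2
      have hv := ind_le_one R e'.1 e.2
      by_cases h3 : R e.1 e'.2
      · have h4 : ¬ R e'.1 e.2 := fun h4 => hf ⟨h3, h4⟩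
        rw [ind_of_not h4]; linarith
      · rw [ind_of_not h3]; linarith
  have h1 : ∑ e ∈ E, ∑ e' ∈ E, (ind R e.1 e'.2 + ind R e'.1 e.2) ≤
      ∑ e ∈ E, ∑ e' ∈ E, (1 + if e = e' then (1 : ℝ) else 0) :=
    Finset.sum_le_sum fun e he => Finset.sum_le_sum fun e' he' => key e he e' he'
  have h2 : ∑ e ∈ E, ∑ e' ∈ E, (ind R e.1 e'.2 + ind R e'.1 e.2) =
      2 * ∑ e ∈ E, ∑ e' ∈ E, ind R e.1 e'.2 := by
    simp only [Finset.sum_add_distrib]
    rw [Finset.sum_comm (f := fun e e' : α × β => ind R e'.1 e.2)]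
    ring
  have h3 : ∑ e ∈ E, ∑ e' ∈ E, (1 + if e = e' then (1 : ℝ) else 0) =
      (E.card : ℝ) * (E.card + 1) := by
    have : ∀ e ∈ E, ∑ e' ∈ E, (1 + if e = e' then (1 : ℝ) else 0) = E.card + 1 := by
      intro e he
      rw [Finset.sum_add_distrib, Finset.sum_ite_eq, if_pos he]
      simp
    rw [Finset.sum_congr rfl this, Finset.sum_const, nsmul_eq_mul]
  rw [h2, h3] at h1
  linarith

/-- (2.2) -/
theorem count_part {γ : Type} {R : α → β → Prop} {col : α → β → γ} (hg : Good R col)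
    {p p' : α → ℕ} {n : ℕ} {ε : ℝ} (hreg : ∀ (X : Finset α) (Y : Finset β),
      ∑ a ∈ X, ∑ b ∈ Y, (avg p' (ind R) a b - ind R a b) ≤ ε * (n : ℝ) ^ 2) (c : γ) (i : ℕ) :
    ((Eci R col p c i).card : ℝ) * ∑ e ∈ Eci R col p c i, avg p (ind R) e.1 e.2 ≤
      ∑ e ∈ Eci R col p c i, ∑ e' ∈ Eci R col p c i,
        |avg p' (ind R) e.1 e'.2 - avg p (ind R) e.1 e'.2| + ε * (n : ℝ) ^ 2 +
      ((Eci R col p c i).card : ℝ) * ((Eci R col p c i).card + 1) / 2 := by
  classical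
  have hcross := count_cross hg p c i
  set E := Eci R col p c i with hE
  have h1 : (E.card : ℝ) * ∑ e ∈ E, avg p (ind R) e.1 e.2 =
      ∑ e ∈ E, ∑ e' ∈ E, avg p (ind R) e.1 e'.2 := by
    rw [← nsmul_eq_mul, ← Finset.sum_const]
    refine Finset.sum_congr rfl fun e he => Finset.sum_congr rfl fun e' he' => ?_
    apply avg_const
    rw [(mem_Eci.1 he').2.2, (mem_Eci.1 he).2.2]
  have hi1 : Set.InjOn (Prod.fst : α × β → α) (E : Set (α × β)) := by
    intro e he e' he' h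
    obtain ⟨h1, h2, -⟩ := mem_Eci.1 (Finset.mem_coe.1 he)
    obtain ⟨h1', h2', -⟩ := mem_Eci.1 (Finset.mem_coe.1 he')
    refine Prod.ext h (hg.left e.1 e.2 e'.2 h1 ?_ ?_)
    · rw [h]; exact h1'
    · rw [h2, h, h2']
  have hi2 : Set.InjOn (Prod.snd : α × β → β) (E : Set (α × β)) := by
    intro e he e' he' h
    obtain ⟨h1, h2, -⟩ := mem_Eci.1 (Finset.mem_coe.1 he)
    obtain ⟨h1', h2', -⟩ := mem_Eci.1 (Finset.mem_coe.1 he')
    refine Prod.ext (hg.right e.1 e'.1 e.2 h1 ?_ ?_) h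
    · rw [h]; exact h1'
    · rw [h2, h, h2']
  have h2 : ∑ e ∈ E, ∑ e' ∈ E, (avg p' (ind R) e.1 e'.2 - ind R e.1 e'.2) ≤
      ε * (n : ℝ) ^ 2 := by
    have h := hreg (E.image Prod.fst) (E.image Prod.snd)
    rw [Finset.sum_image hi1] at h
    refine le_trans (le_of_eq ?_) h
    refine Finset.sum_congr rfl fun e _ => ?_
    rw [Finset.sum_image hi2]
  have h3 : ∑ e ∈ E, ∑ e' ∈ E, avg p (ind R) e.1 e'.2 ≤
      ∑ e ∈ E, ∑ e' ∈ E, |avg p' (ind R) e.1 e'.2 - avg p (ind R) e.1 e'.2| +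
      ∑ e ∈ E, ∑ e' ∈ E, (avg p' (ind R) e.1 e'.2 - ind R e.1 e'.2) +
      ∑ e ∈ E, ∑ e' ∈ E, ind R e.1 e'.2 := by
    rw [← Finset.sum_add_distrib, ← Finset.sum_add_distrib]
    refine Finset.sum_le_sum fun e _ => ?_
    rw [← Finset.sum_add_distrib, ← Finset.sum_add_distrib]
    refine Finset.sum_le_sum fun e' _ => ?_
    have := neg_le_abs (avg p' (ind R) e.1 e'.2 - avg p (ind R) e.1 e'.2)
    linarith
  rw [h1]
  linarith

end CH
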