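import Mathlib

/-! MP_d8d446_co, helper module: definitions for the density bound between two vertex sets of a
graph with a colouring in which every four-cycle is rainbow. -/

set_option autoImplicit false

open Finset

namespace CH

variable {α β : Type} [Fintype α] [Fintype β]

/-- the part of `a` -/
def part (p : α → ℕ) (a : α) : Finset α := univ.filter fun a' => p a' = p a

/-- average of the column `b` over the part of `a` -/
noncomputable def avg (p : α → ℕ) (G : α → β → ℝ) (a : α) (b : β) : ℝ :=
  (∑ a' ∈ part p a, G a' b) / ((part p a).card : ℝ)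

/-- energy -/
noncomputable def en (p : α → ℕ) (G : α → β → ℝ) : ℝ := ∑ a, ∑ b, avg p G a b ^ 2

/-- `p'` refines `p` -/
def Ref (p' p : α → ℕ) : Prop := ∀ a a', p' a = p' a' → p a = p a'

/-- indicator of an edge relation -/
noncomputable def ind (R : α → β → Prop) (a : α) (b : β) : ℝ := by
  classical exact if R a b then 1 else 0

/-- edges of colour `c` in the part with label `i` -/
noncomputable def Eci {γ : Type} (R : α → β → Prop) (col : α → β → γ) (p : α → ℕ) (c : γ) (i : ℕ) :
    Finset (α × β) := by
  classical exact univ.filter fun e => R e.1 e.2 ∧ col e.1 e.2 = c ∧ p e.1 = i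

/-- the hypotheses on a proper colouring -/
structure Good {γ : Type} (R : α → β → Prop) (col : α → β → γ) : Prop where
  left : ∀ a b b', R a b → R a b' → col a b = col a b' → b = b'
  right : ∀ a a' b, R a b → R a' b → col a b = col a' b → a = a'
  fool : ∀ a a' b b', a ≠ a' → b ≠ b' → R a b → R a' b' → col a b = col a' b' →
    ¬ (R a b' ∧ R a' b)

/-- hypotheses of the bipartite form, not proper -/
structure Fool {γ : Type} (R : α → β → Prop) (col : α → β → γ) : Prop where
  left : ∀ a b b', b ≠ b' → R a b → R a b' → col a b = col a b' → ∀ a', R a' b → R a' b' → a' = a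
  right : ∀ a a' b, a ≠ a' → R a b → R a' b → col a b = col a' b → ∀ b', R a b' → R a' b' → b' = b
  fool : ∀ a a' b b', a ≠ a' → b ≠ b' → R a b → R a' b' → col a b = col a' b' →
    ¬ (R a b' ∧ R a' b)

theorem mem_part {p : α → ℕ} {a a' : α} : a' ∈ part p a ↔ p a' = p a := by
  simp [part]

theorem mem_Eci {γ : Type} {R : α → β → Prop} {col : α → β → γ} {p : α → ℕ} {c : γ} {i : ℕ}
    {e : α × β} : e ∈ Eci R col p c i ↔ R e.1 e.2 ∧ col e.1 e.2 = c ∧ p e.1 = i := by
  simp [Eci]

omit [Fintype α] [Fintype β] in
theorem ind_of {R : α → β → Prop} {a : α} {b : β} (h : R a b) : ind R a b = 1 := by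
  simp [ind, h]

omit [Fintype α] [Fintype β] in
theorem ind_of_not {R : α → β → Prop} {a : α} {b : β} (h : ¬ R a b) : ind R a b = 0 := by
  simp [ind, h]

omit [Fintype α] [Fintype β] in
theorem ind_nonneg (R : α → β → Prop) (a : α) (b : β) : 0 ≤ ind R a b := by
  by_cases h : R a b
  · rw [ind_of h]; exact zero_le_one
  · rw [ind_of_not h]

omit [Fintype α] [Fintype β] in
theorem ind_le_one (R : α → β → Prop) (a : α) (b : β) : ind R a b ≤ 1 := by
  by_cases h : R a b
  · rw [ind_of h]
  · rw [ind_of_not h]; exact zero_le_one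

end CH
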