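import Pool.Agent.CH.Defs

/-! MP_d8d446_co, helper module: averages over the parts of a partition of the rows, energy. -/

set_option autoImplicit false

open Finset

namespace CH

section One

variable {α : Type} [Fintype α]

/-- average of a function of one variable over the part of `a` -/
noncomputable def av (p : α → ℕ) (g : α → ℝ) (a : α) : ℝ :=
  (∑ a' ∈ part p a, g a') / ((part p a).card : ℝ)

theorem part_congr {p : α → ℕ} {a a' : α} (h : p a = p a') : part p a = part p a' := by
  unfold part; rw [h]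

theorem part_card_pos (p : α → ℕ) (a : α) : (0 : ℝ) < ((part p a).card : ℝ) := by
  have : 0 < (part p a).card := Finset.card_pos.2 ⟨a, by simp [part]⟩
  exact_mod_cast this

/-- averages are self-adjoint -/
theorem av_adj (p : α → ℕ) (g h : α → ℝ) : ∑ a, h a * av p g a = ∑ a, av p h a * g a := by
  have h1 : ∑ a, h a * av p g a = ∑ a, ∑ a' ∈ part p a, h a * g a' / ((part p a).card : ℝ) := by
    refine Finset.sum_congr rfl fun a _ => ?_
    unfold av
    rw [← Finset.sum_div, ← Finset.mul_sum, mul_div_assoc]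
  have h2 : ∑ a, av p h a * g a = ∑ a, ∑ a' ∈ part p a, h a' * g a / ((part p a).card : ℝ) := by
    refine Finset.sum_congr rfl fun a _ => ?_
    unfold av
    rw [← Finset.sum_div, ← Finset.sum_mul]
    ring
  rw [h1, h2, Finset.sum_comm' (s' := fun a' => part p a') (t' := univ)]
  · refine Finset.sum_congr rfl fun a _ => Finset.sum_congr rfl fun a' ha' => ?_
    have : part p a' = part p a := part_congr (by simpa [part] using ha')
    rw [this]
  · intro a a'
    simp [part, eq_comm]

/-- functions constant on the parts are fixed -/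
theorem av_fix {p : α → ℕ} {h : α → ℝ} (hh : ∀ a a', p a = p a' → h a = h a') (a : α) :
    av p h a = h a := by
  unfold av
  rw [Finset.sum_congr rfl (fun a' ha' => (hh a' a (by simpa [part] using ha'))),
    Finset.sum_const, nsmul_eq_mul]
  have := part_card_pos p a
  field_simp

theorem av_const {p : α → ℕ} {g : α → ℝ} {a a' : α} (h : p a = p a') : av p g a = av p g a' := by
  unfold av; rw [part_congr h]

/-- projection against a function constant on the parts -/
theorem av_proj {p : α → ℕ} {h : α → ℝ} (hh : ∀ a a', p a = p a' → h a = h a') (g : α → ℝ) :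
    ∑ a, h a * av p g a = ∑ a, h a * g a := by
  rw [av_adj]
  exact Finset.sum_congr rfl fun a _ => by rw [av_fix hh]

end One

variable {α β : Type} [Fintype α]

theorem avg_eq_av (p : α → ℕ) (G : α → β → ℝ) (a : α) (b : β) :
    avg p G a b = av p (fun a => G a b) a := rfl

theorem avg_nonneg {p : α → ℕ} {G : α → β → ℝ} (h0 : ∀ a b, 0 ≤ G a b) (a : α) (b : β) :
    0 ≤ avg p G a b :=
  div_nonneg (Finset.sum_nonneg fun a' _ => h0 a' b) (Nat.cast_nonneg _)

theorem avg_le_one {p : α → ℕ} {G : α → β → ℝ} (h1 : ∀ a b, G a b ≤ 1) (a : α) (b : β) :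
    avg p G a b ≤ 1 := by
  unfold avg
  rw [div_le_one (part_card_pos p a)]
  calc ∑ a' ∈ part p a, G a' b ≤ ∑ _a' ∈ part p a, (1 : ℝ) :=
        Finset.sum_le_sum fun a' _ => h1 a' b
    _ = _ := by simp

theorem avg_const {p : α → ℕ} {G : α → β → ℝ} {a a' : α} (h : p a = p a') (b : β) :
    avg p G a b = avg p G a' b := by
  unfold avg; rw [part_congr h]

/-- sums over saturated sets -/
theorem sum_avg {p : α → ℕ} {G : α → β → ℝ} {X : Finset α}
    (hX : ∀ a a', p a = p a' → a ∈ X → a' ∈ X) (Y : Finset β) :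
    ∑ a ∈ X, ∑ b ∈ Y, avg p G a b = ∑ a ∈ X, ∑ b ∈ Y, G a b := by
  classical
  rw [Finset.sum_comm, Finset.sum_comm (s := X)]
  refine Finset.sum_congr rfl fun b _ => ?_
  have h1 : ∀ f : α → ℝ, ∑ a ∈ X, f a = ∑ a, (if a ∈ X then (1 : ℝ) else 0) * f a := by
    intro f
    simp
  rw [h1, h1 (fun a => G a b)]
  simp only [avg_eq_av]
  apply av_proj
  intro a a' ha
  by_cases h : a ∈ X
  · rw [if_pos h, if_pos (hX a a' ha h)]
  · rw [if_neg h, if_neg (fun h' => h (hX a' a ha.symm h'))]

variable [Fintype β]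

/-- projection -/
theorem sum_mul_avg (p : α → ℕ) (G : α → β → ℝ) :
    ∑ a, ∑ b, G a b * avg p G a b = en p G := by
  unfold en
  rw [Finset.sum_comm, Finset.sum_comm (f := fun a b => avg p G a b ^ 2)]
  refine Finset.sum_congr rfl fun b _ => ?_
  have h := av_proj (p := p) (h := av p (fun a => G a b)) (fun a a' ha => av_const ha)
    (fun a => G a b)
  simp only [avg_eq_av]
  calc ∑ a, G a b * av p (fun a => G a b) a = ∑ a, av p (fun a => G a b) a * G a b :=
        Finset.sum_congr rfl fun a _ => mul_comm _ _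
    _ = ∑ a, av p (fun a => G a b) a * av p (fun a => G a b) a := h.symm
    _ = _ := Finset.sum_congr rfl fun a _ => (sq _).symm

theorem pyth {p' p : α → ℕ} (h : Ref p' p) (G : α → β → ℝ) :
    ∑ a, ∑ b, (avg p' G a b - avg p G a b) ^ 2 = en p' G - en p G := by
  unfold en
  rw [Finset.sum_comm, Finset.sum_comm (f := fun a b => avg p' G a b ^ 2),
    Finset.sum_comm (f := fun a b => avg p G a b ^ 2), ← Finset.sum_sub_distrib]
  refine Finset.sum_congr rfl fun b _ => ?_
  simp only [avg_eq_av]
  have h1 := av_proj (p := p') (h := av p (fun a => G a b)) (fun a a' ha => av_const (h a a' ha))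
    (fun a => G a b)
  have h2 := av_proj (p := p) (h := av p (fun a => G a b)) (fun a a' ha => av_const ha)
    (fun a => G a b)
  have h3 : ∑ a, (av p' (fun a => G a b) a - av p (fun a => G a b) a) ^ 2 =
      ∑ a, av p' (fun a => G a b) a ^ 2 -
        2 * ∑ a, av p (fun a => G a b) a * av p' (fun a => G a b) a +
        ∑ a, av p (fun a => G a b) a * av p (fun a => G a b) a := by
    rw [Finset.mul_sum, ← Finset.sum_sub_distrib, ← Finset.sum_add_distrib]
    exact Finset.sum_congr rfl fun a _ => by ring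
  have h4 : ∑ a, av p (fun a => G a b) a ^ 2 =
      ∑ a, av p (fun a => G a b) a * av p (fun a => G a b) a :=
    Finset.sum_congr rfl fun a _ => sq _
  rw [h3, h4, h1, h2]
  ring

/-- Cauchy-Schwarz: `e ^ 2 ≤ |α| |β| * energy` -/
theorem sq_le_en (p : α → ℕ) (G : α → β → ℝ) :
    (∑ a, ∑ b, G a b) ^ 2 ≤ (Fintype.card α : ℝ) * Fintype.card β * en p G := by
  have h0 := sum_avg (p := p) (G := G) (X := univ) (fun a a' _ _ => Finset.mem_univ a')
    (Y := univ)
  rw [← h0]
  have h1 : (∑ x : α × β, avg p G x.1 x.2 * 1) ^ 2 ≤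
      (∑ x : α × β, avg p G x.1 x.2 ^ 2) * ∑ _x : α × β, (1 : ℝ) ^ 2 :=
    Finset.sum_mul_sq_le_sq_mul_sq _ _ _
  have h2 : ∑ x : α × β, avg p G x.1 x.2 * 1 = ∑ a, ∑ b, avg p G a b := by
    rw [Fintype.sum_prod_type]; simp
  have h3 : ∑ x : α × β, avg p G x.1 x.2 ^ 2 = en p G := by
    unfold en
    rw [Fintype.sum_prod_type]
  have h4 : ∑ _x : α × β, (1 : ℝ) ^ 2 = (Fintype.card α : ℝ) * Fintype.card β := by
    simp
  rw [h2, h3, h4] at h1
  linarith

end CH
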