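import Pool.Agent.CH.Reg66
import Pool.Agent.CH.Cross75
import Pool.Agent.CH.CountErr28

/-! MP_d8d446_co, helper module: the density bound for proper colourings. -/

set_option autoImplicit false

open Finset

namespace CH

section

variable {α β : Type} [Fintype α] [Fintype β] [DecidableEq α] [DecidableEq β]

/-- one colour and one part -/
theorem one_part {m S D κ v θN E : ℝ} (hκ : 0 < κ) (hv : 0 < v) (hθ : 0 < θN) (hm : 0 ≤ m)
    (hS : S ≤ m) (hD : 0 ≤ D) (hE : 0 ≤ E) (h : m * S ≤ D + E + m * (m + 1) / 2) :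
    S ≤ (κ * v + θN) + D / v / κ + E / θN + m / 2 + 1 / 2 := by
  have h1 : 0 ≤ D / v / κ := div_nonneg (div_nonneg hD hv.le) hκ.le
  have h2 : 0 ≤ E / θN := div_nonneg hE hθ.le
  rcases le_or_gt m (κ * v + θN) with hc | hc
  · linarith
  · have hκv : 0 < κ * v := mul_pos hκ hv
    have hm0 : 0 < m := by linarith
    have h3 : S ≤ (D + E + m * (m + 1) / 2) / m := by
      rw [le_div_iff₀ hm0]; linarith
    have h4 : (D + E + m * (m + 1) / 2) / m = D / m + E / m + (m + 1) / 2 := by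
      field_simp
    have h5 : D / m ≤ D / v / κ := by
      rw [div_div]
      exact div_le_div_of_nonneg_left hD (by linarith [mul_comm κ v]) (by nlinarith)
    have h6 : E / m ≤ E / θN := div_le_div_of_nonneg_left hE hθ (by linarith)
    rw [h4] at h3
    linarith

omit [DecidableEq α] [DecidableEq β] in
/-- Cauchy-Schwarz for the `L¹` distance -/
theorem l1_le {n : ℕ} (hα : Fintype.card α ≤ n) (hβ : Fintype.card β ≤ n) (f : α → β → ℝ)
    {t : ℝ} (ht : 0 ≤ t) (h : ∑ a, ∑ b, f a b ^ 2 ≤ t ^ 2 * (n : ℝ) ^ 2) :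
    ∑ a, ∑ b, |f a b| ≤ t * (n : ℝ) ^ 2 := by
  have h1 : (∑ x : α × β, |f x.1 x.2| * 1) ^ 2 ≤
      (∑ x : α × β, |f x.1 x.2| ^ 2) * ∑ _x : α × β, (1 : ℝ) ^ 2 :=
    Finset.sum_mul_sq_le_sq_mul_sq _ _ _
  have h2 : ∑ x : α × β, |f x.1 x.2| * 1 = ∑ a, ∑ b, |f a b| := by
    rw [Fintype.sum_prod_type]; simp
  have h3 : ∑ x : α × β, |f x.1 x.2| ^ 2 = ∑ a, ∑ b, f a b ^ 2 := by
    rw [Fintype.sum_prod_type]; simp
  have h4 : ∑ _x : α × β, (1 : ℝ) ^ 2 = (Fintype.card α : ℝ) * Fintype.card β := by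
    simp
  rw [h2, h3, h4] at h1
  have h5 : (Fintype.card α : ℝ) * Fintype.card β ≤ (n : ℝ) ^ 2 := by
    rw [sq]
    exact mul_le_mul (by exact_mod_cast hα) (by exact_mod_cast hβ) (Nat.cast_nonneg _)
      (Nat.cast_nonneg _)
  have h6 : (∑ a, ∑ b, |f a b|) ^ 2 ≤ (t * (n : ℝ) ^ 2) ^ 2 := by
    calc (∑ a, ∑ b, |f a b|) ^ 2 ≤ _ := h1
      _ ≤ (t ^ 2 * (n : ℝ) ^ 2) * (n : ℝ) ^ 2 := by
          apply mul_le_mul h h5 (by positivity) (by positivity)
      _ = (t * (n : ℝ) ^ 2) ^ 2 := by ring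
  exact le_of_sq_le_sq h6 (by positivity)

omit [DecidableEq α] in
/-- the sizes of the parts add up -/
theorem sum_parts (p : α → ℕ) :
    ∑ i ∈ univ.image p, ((univ.filter fun a => p a = i).card : ℝ) = Fintype.card α := by
  have h := Finset.card_eq_sum_card_fiberwise (s := (univ : Finset α)) (t := univ.image p)
    (f := p) (fun a _ => Finset.mem_coe.2 (Finset.mem_image_of_mem p (Finset.mem_univ a)))
  rw [Finset.card_univ] at h
  rw [h]
  push_cast
  rfl

end

/-- the energy bound -/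
theorem energy_bound {K δ : ℝ} (hK : 1 ≤ K) (hδ : 0 < δ) {n k : ℕ} {ε : ℝ} (hε : 0 < ε)
    (hεk : K * k ^ 2 * ε ≤ δ / (16 * K) * (δ / 8)) (hk : 1 ≤ k) (hn : 4 * K * k ≤ δ * n)
    {α β γ : Type} [Fintype α] [Fintype β] [Fintype γ] [DecidableEq α] [DecidableEq β]
    (R : α → β → Prop) (col : α → β → γ) (hα : Fintype.card α ≤ n) (hβ : Fintype.card β ≤ n)
    (hγ : (Fintype.card γ : ℝ) ≤ K * n) (hg : Good R col) {p p' : α → ℕ} (hp : Ref p' p)
    (hlab : (univ.image p).card ≤ k)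
    (hen : en p' (ind R) - en p (ind R) ≤ (δ / (16 * K) * (δ / 8)) ^ 2 * (n : ℝ) ^ 2)
    (hreg : ∀ (X : Finset α) (Y : Finset β),
      ∑ a ∈ X, ∑ b ∈ Y, (avg p' (ind R) a b - ind R a b) ≤ ε * (n : ℝ) ^ 2) :
    en p (ind R) ≤ (∑ a, ∑ b, ind R a b) / 2 + δ / 2 * (n : ℝ) ^ 2 := by
  have hK0 : 0 < K := by linarith
  set κ := δ / (16 * K) with hκ
  have hκ0 : 0 < κ := by positivity
  have hk0 : (0 : ℝ) < k := by exact_mod_cast hk
  have hn0 : (0 : ℝ) < n := by
    have : 0 < 4 * K * k := by positivity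
    by_contra h
    push Not at h
    nlinarith
  set N : ℝ := (n : ℝ) with hN
  have hθ0 : 0 < κ / k * N := by positivity
  -- pointwise
  have hpt : ∀ c : γ, ∀ i ∈ univ.image p, ∑ e ∈ Eci R col p c i, avg p (ind R) e.1 e.2 ≤
      (κ * ((univ.filter fun a => p a = i).card : ℝ) + κ / k * N) +
      (∑ e ∈ Eci R col p c i, ∑ e' ∈ Eci R col p c i,
        |avg p' (ind R) e.1 e'.2 - avg p (ind R) e.1 e'.2|) /
        ((univ.filter fun a => p a = i).card : ℝ) / κ +
      ε * N ^ 2 / (κ / k * N) + (∑ _e ∈ Eci R col p c i, (1 : ℝ)) / 2 + 1 / 2 := by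
    intro c i hi
    obtain ⟨a, -, ha⟩ := Finset.mem_image.1 hi
    have hv : (0 : ℝ) < ((univ.filter fun a => p a = i).card : ℝ) := by
      have : 0 < (univ.filter fun a => p a = i).card :=
        Finset.card_pos.2 ⟨a, Finset.mem_filter.2 ⟨Finset.mem_univ _, ha⟩⟩
      exact_mod_cast this
    rw [Finset.sum_const, nsmul_eq_mul, mul_one]
    apply one_part hκ0 hv hθ0 (Nat.cast_nonneg _)
    · calc ∑ e ∈ Eci R col p c i, avg p (ind R) e.1 e.2 ≤ ∑ _e ∈ Eci R col p c i, (1 : ℝ) :=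
            Finset.sum_le_sum fun e _ => avg_le_one (ind_le_one R) _ _
        _ = _ := by rw [Finset.sum_const, nsmul_eq_mul, mul_one]
    · exact Finset.sum_nonneg fun e _ => Finset.sum_nonneg fun e' _ => abs_nonneg _
    · positivity
    · exact count_part hg hreg c i
  -- sum
  have hsum : en p (ind R) ≤ ∑ c : γ, ∑ i ∈ univ.image p,
      ((κ * ((univ.filter fun a => p a = i).card : ℝ) + κ / k * N) +
      (∑ e ∈ Eci R col p c i, ∑ e' ∈ Eci R col p c i,
        |avg p' (ind R) e.1 e'.2 - avg p (ind R) e.1 e'.2|) /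
        ((univ.filter fun a => p a = i).card : ℝ) / κ +
      ε * N ^ 2 / (κ / k * N) + (∑ _e ∈ Eci R col p c i, (1 : ℝ)) / 2 + 1 / 2) := by
    rw [← sum_mul_avg, ← sum_edges R col p (fun a b => avg p (ind R) a b)]
    exact Finset.sum_le_sum fun c _ => Finset.sum_le_sum fun i hi => hpt c i hi
  simp only [Finset.sum_add_distrib] at hsum
  have hγ0 : (0 : ℝ) ≤ (Fintype.card γ : ℝ) := Nat.cast_nonneg _
  have hlab' : ((univ.image p).card : ℝ) ≤ k := by exact_mod_cast hlab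
  have hlab0 : (0 : ℝ) ≤ ((univ.image p).card : ℝ) := Nat.cast_nonneg _
  have hαN : (Fintype.card α : ℝ) ≤ N := by rw [hN]; exact_mod_cast hα
  -- term 1
  have t1 : ∑ _c : γ, ∑ i ∈ univ.image p, κ * ((univ.filter fun a => p a = i).card : ℝ) ≤
      δ / 16 * N ^ 2 := by
    rw [Finset.sum_const, ← Finset.mul_sum, sum_parts, nsmul_eq_mul, Finset.card_univ]
    calc (Fintype.card γ : ℝ) * (κ * Fintype.card α) ≤ (K * N) * (κ * N) := by
          apply mul_le_mul hγ _ (by positivity) (by positivity)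
          exact mul_le_mul_of_nonneg_left hαN hκ0.le
      _ = δ / 16 * N ^ 2 := by rw [hκ]; field_simp
  -- term 2
  have t2 : ∑ _c : γ, ∑ _i ∈ univ.image p, κ / k * N ≤ δ / 16 * N ^ 2 := by
    rw [Finset.sum_const, Finset.sum_const, nsmul_eq_mul, nsmul_eq_mul, Finset.card_univ]
    calc (Fintype.card γ : ℝ) * (((univ.image p).card : ℝ) * (κ / k * N)) ≤
          (K * N) * (k * (κ / k * N)) := by
          apply mul_le_mul hγ _ (by positivity) (by positivity)
          exact mul_le_mul_of_nonneg_right hlab' hθ0.le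
      _ = δ / 16 * N ^ 2 := by rw [hκ]; field_simp
  -- term 3
  have t3 : ∑ c : γ, ∑ i ∈ univ.image p, (∑ e ∈ Eci R col p c i, ∑ e' ∈ Eci R col p c i,
        |avg p' (ind R) e.1 e'.2 - avg p (ind R) e.1 e'.2|) /
        ((univ.filter fun a => p a = i).card : ℝ) / κ ≤ δ / 8 * N ^ 2 := by
    have h1 := count_err hg p (fun a b => |avg p' (ind R) a b - avg p (ind R) a b|)
      (fun a b => abs_nonneg _)
    have h2 : ∑ a, ∑ b, |avg p' (ind R) a b - avg p (ind R) a b| ≤ κ * (δ / 8) * N ^ 2 := by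
      apply l1_le hα hβ (fun a b => avg p' (ind R) a b - avg p (ind R) a b) (by positivity)
      rw [pyth hp]
      exact hen
    simp only [← Finset.sum_div] at h1 ⊢
    rw [div_le_iff₀ hκ0]
    calc _ ≤ _ := h1
      _ ≤ _ := h2
      _ = δ / 8 * N ^ 2 * κ := by ring
  -- term 4
  have t4 : ∑ _c : γ, ∑ _i ∈ univ.image p, ε * N ^ 2 / (κ / k * N) ≤ δ / 8 * N ^ 2 := by
    rw [Finset.sum_const, Finset.sum_const, nsmul_eq_mul, nsmul_eq_mul, Finset.card_univ]
    calc (Fintype.card γ : ℝ) * (((univ.image p).card : ℝ) * (ε * N ^ 2 / (κ / k * N))) ≤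
          (K * N) * (k * (ε * N ^ 2 / (κ / k * N))) := by
          apply mul_le_mul hγ _ (by positivity) (by positivity)
          exact mul_le_mul_of_nonneg_right hlab' (by positivity)
      _ = K * k ^ 2 * ε / κ * N ^ 2 := by field_simp
      _ ≤ (κ * (δ / 8)) / κ * N ^ 2 := by gcongr
      _ = δ / 8 * N ^ 2 := by field_simp
  -- term 5
  have t5 : ∑ c : γ, ∑ i ∈ univ.image p, (∑ _e ∈ Eci R col p c i, (1 : ℝ)) / 2 =
      (∑ a, ∑ b, ind R a b) / 2 := by
    simp only [← Finset.sum_div]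
    congr 1
    have h := sum_edges R col p (fun _ _ => (1 : ℝ))
    simpa using h
  -- term 6
  have t6 : ∑ _c : γ, ∑ _i ∈ univ.image p, (1 / 2 : ℝ) ≤ δ / 8 * N ^ 2 := by
    rw [Finset.sum_const, Finset.sum_const, nsmul_eq_mul, nsmul_eq_mul, Finset.card_univ]
    calc (Fintype.card γ : ℝ) * (((univ.image p).card : ℝ) * (1 / 2)) ≤
          (K * N) * (k * (1 / 2)) := by
          apply mul_le_mul hγ _ (by positivity) (by positivity)
          exact mul_le_mul_of_nonneg_right hlab' (by norm_num)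
      _ = (4 * K * k) * N / 8 := by ring
      _ ≤ (δ * N) * N / 8 := by gcongr
      _ = δ / 8 * N ^ 2 := by ring
  linarith

/-- the proper case -/
theorem proper_case (K δ : ℝ) (hK : 1 ≤ K) (hδ : 0 < δ) : ∃ n₀ : ℕ, ∀ n ≥ n₀,
    ∀ {α β γ : Type} [Fintype α] [Fintype β] [Fintype γ] [DecidableEq α] [DecidableEq β]
      (R : α → β → Prop) (col : α → β → γ), Fintype.card α ≤ n → Fintype.card β ≤ n →
      (Fintype.card γ : ℝ) ≤ K * n → Good R col →
      ∑ a, ∑ b, ind R a b ≤ (Fintype.card α : ℝ) * Fintype.card β / 2 + δ * (n : ℝ) ^ 2 := by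
  have hK0 : 0 < K := by linarith
  obtain ⟨M, hM⟩ := strong_reg (fun k => δ / (16 * K) * (δ / 8) / (K * ((k : ℝ) + 1) ^ 2))
    (fun k => by positivity) (η := (δ / (16 * K) * (δ / 8)) ^ 2) (by positivity)
  obtain ⟨n₀, hn₀⟩ := exists_nat_gt (4 * K * M / δ)
  refine ⟨n₀, fun n hn α β γ _ _ _ _ _ R col hα hβ hγ hg => ?_⟩
  obtain ⟨k, hkM, p, p', hk1, hp, hlab, hen, hreg⟩ :=
    hM (ind R) n (ind_nonneg R) (ind_le_one R) hα hβ
  have hkM' : (k : ℝ) ≤ M := by exact_mod_cast hkM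
  have hnn : (n₀ : ℝ) ≤ n := by exact_mod_cast hn
  have hn4 : 4 * K * k ≤ δ * n := by
    have h1 : 4 * K * M / δ < n := lt_of_lt_of_le hn₀ hnn
    rw [div_lt_iff₀ hδ] at h1
    nlinarith
  have hen' := energy_bound hK hδ
    (ε := δ / (16 * K) * (δ / 8) / (K * ((k : ℝ) + 1) ^ 2)) (by positivity) (by
      have hk0 : (0 : ℝ) ≤ k := Nat.cast_nonneg _
      have h2 : K * (k : ℝ) ^ 2 ≤ K * ((k : ℝ) + 1) ^ 2 := by
        apply mul_le_mul_of_nonneg_left _ hK0.le
        exact pow_le_pow_left₀ hk0 (by linarith) 2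
      calc K * (k : ℝ) ^ 2 * (δ / (16 * K) * (δ / 8) / (K * ((k : ℝ) + 1) ^ 2)) ≤
            K * ((k : ℝ) + 1) ^ 2 * (δ / (16 * K) * (δ / 8) / (K * ((k : ℝ) + 1) ^ 2)) := by
            apply mul_le_mul_of_nonneg_right h2 (by positivity)
        _ = δ / (16 * K) * (δ / 8) := by
            have : K * ((k : ℝ) + 1) ^ 2 ≠ 0 := by positivity
            field_simp) hk1 hn4 R col hα hβ hγ hg hp hlab hen hreg
  have hcs := sq_le_en p (ind R)
  set e := ∑ a, ∑ b, ind R a b with he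
  set P := (Fintype.card α : ℝ) * Fintype.card β with hP
  have hP0 : 0 ≤ P := by positivity
  by_contra hcon
  push Not at hcon
  have h1 : e ^ 2 ≤ P * (e / 2 + δ / 2 * (n : ℝ) ^ 2) :=
    hcs.trans (mul_le_mul_of_nonneg_left hen' hP0)
  have hN0 : 0 ≤ δ * (n : ℝ) ^ 2 := by positivity
  have he0 : 0 < e := by linarith
  have h2 : e * (P / 2 + δ * (n : ℝ) ^ 2) < e * e := mul_lt_mul_of_pos_left hcon he0
  have h3 : δ * (n : ℝ) ^ 2 * (P / 2) ≤ δ * (n : ℝ) ^ 2 * e :=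
    mul_le_mul_of_nonneg_left (by linarith) hN0
  nlinarith

end CH
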