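import Pool.Agent.CH.Defs

/-! MP_d8d446_co, helper module: reduction to proper colourings. -/

set_option autoImplicit false

open Finset

namespace CH

variable {α β : Type}

/-- transpose -/
theorem Fool.swap {γ : Type} {R : α → β → Prop} {col : α → β → γ} (h : Fool R col) :
    Fool (fun b a => R a b) (fun b a => col a b) where
  left := fun b a a' haa h1 h2 hc b' h3 h4 => h.right a a' b haa h1 h2 hc b' h3 h4
  right := fun b b' a hbb h1 h2 hc a' h3 h4 => h.left a b b' hbb h1 h2 hc a' h3 h4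
  fool := fun b b' a a' hbb haa h1 h2 hc h3 => h.fool a a' b b' haa hbb h1 h2 hc ⟨h3.2, h3.1⟩

theorem exists_injOn {β : Type} {D : ℕ} (s : Finset β) (hs : s.card ≤ D + 1) :
    ∃ f : β → Fin (D + 1), ∀ b ∈ s, ∀ b' ∈ s, f b = f b' → b = b' := by
  classical
  have h : Nonempty (s ↪ Fin (D + 1)) := by
    apply Function.Embedding.nonempty_of_card_le
    simpa using hs
  obtain ⟨e⟩ := h
  refine ⟨fun b => if hb : b ∈ s then e ⟨b, hb⟩ else 0, fun b hb b' hb' hbb => ?_⟩
  simp only [hb, hb', dif_pos] at hbb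
  exact congrArg Subtype.val (e.injective hbb)

/-- Step 0: reduction to proper colourings -/
theorem to_proper [Fintype α] [Fintype β] {D : ℕ} {γ : Type} {R R' : α → β → Prop}
    {col : α → β → γ} (h : Fool R col) (hR : ∀ a b, R' a b → R a b)
    (hl : ∀ a c (s : Finset β), (∀ b ∈ s, R' a b ∧ col a b = c) → s.card ≤ D + 1)
    (hr : ∀ b c (s : Finset α), (∀ a ∈ s, R' a b ∧ col a b = c) → s.card ≤ D + 1) :
    ∃ col' : α → β → γ × Fin (D + 1) × Fin (D + 1), Good R' col' := by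
  classical
  have hf : ∀ (a : α) (c : γ), ∃ f : β → Fin (D + 1), ∀ b b', R' a b → col a b = c →
      R' a b' → col a b' = c → f b = f b' → b = b' := by
    intro a c
    obtain ⟨f, hf⟩ := exists_injOn (univ.filter fun b => R' a b ∧ col a b = c)
      (hl a c _ fun b hb => (Finset.mem_filter.1 hb).2)
    exact ⟨f, fun b b' h1 h2 h3 h4 h5 => hf b (Finset.mem_filter.2 ⟨Finset.mem_univ _, h1, h2⟩) b'
      (Finset.mem_filter.2 ⟨Finset.mem_univ _, h3, h4⟩) h5⟩
  have hg : ∀ (b : β) (c : γ), ∃ g : α → Fin (D + 1), ∀ a a', R' a b → col a b = c →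
      R' a' b → col a' b = c → g a = g a' → a = a' := by
    intro b c
    obtain ⟨g, hg⟩ := exists_injOn (univ.filter fun a => R' a b ∧ col a b = c)
      (hr b c _ fun a ha => (Finset.mem_filter.1 ha).2)
    exact ⟨g, fun a a' h1 h2 h3 h4 h5 => hg a (Finset.mem_filter.2 ⟨Finset.mem_univ _, h1, h2⟩) a'
      (Finset.mem_filter.2 ⟨Finset.mem_univ _, h3, h4⟩) h5⟩
  choose f hf using hf
  choose g hg using hg
  refine ⟨fun a b => (col a b, f a (col a b) b, g b (col a b) a), ?_, ?_, ?_⟩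
  · intro a b b' h1 h2 hc
    simp only [Prod.mk.injEq] at hc
    obtain ⟨hc1, hc2, -⟩ := hc
    rw [← hc1] at hc2
    exact hf a (col a b) b b' h1 rfl h2 hc1.symm hc2
  · intro a a' b h1 h2 hc
    simp only [Prod.mk.injEq] at hc
    obtain ⟨hc1, -, hc2⟩ := hc
    rw [← hc1] at hc2
    exact hg b (col a b) a a' h1 rfl h2 hc1.symm hc2
  · intro a a' b b' ha hb h1 h2 hc h3
    simp only [Prod.mk.injEq] at hc
    exact h.fool a a' b b' ha hb (hR _ _ h1) (hR _ _ h2) hc.1 ⟨hR _ _ h3.1, hR _ _ h3.2⟩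

/-- Step 0: few edges of one colour at a vertex -/
theorem few_at [Fintype α] {γ : Type} {R : α → β → Prop} {col : α → β → γ} (h : Fool R col)
    {d : ℕ} (hd : 1 ≤ d) {D : ℕ} (hD : Fintype.card α ≤ D * d) (a : α) (c : γ) (s : Finset β)
    (hs : ∀ b ∈ s, R a b ∧ col a b = c)
    (hdeg : ∀ b ∈ s, ∃ t : Finset α, d + 1 ≤ t.card ∧ ∀ a' ∈ t, R a' b) : s.card ≤ D := by
  classical
  have hT : ∀ b : β, ∃ t : Finset α, (b ∈ s → d ≤ t.card) ∧ ∀ a' ∈ t, R a' b ∧ a' ≠ a := by
    intro b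
    by_cases hb : b ∈ s
    · obtain ⟨t, ht, h1⟩ := hdeg b hb
      refine ⟨t.erase a, fun _ => ?_, fun a' ha' => ?_⟩
      · have := Finset.pred_card_le_card_erase (s := t) (a := a)
        omega
      · exact ⟨h1 a' (Finset.mem_of_mem_erase ha'), Finset.ne_of_mem_erase ha'⟩
    · exact ⟨∅, fun h => absurd h hb, fun a' ha' => absurd ha' (Finset.notMem_empty _)⟩
  choose T hT1 hT2 using hT
  have hdis : (s : Set β).PairwiseDisjoint T := by
    intro b hb b' hb' hbb
    rw [Function.onFun, Finset.disjoint_left]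
    intro a' h1 h2
    have hb1 := hs b (Finset.mem_coe.1 hb)
    have hb2 := hs b' (Finset.mem_coe.1 hb')
    exact (hT2 b a' h1).2 (h.left a b b' hbb hb1.1 hb2.1 (hb1.2.trans hb2.2.symm) a'
      (hT2 b a' h1).1 (hT2 b' a' h2).1)
  have h1 : s.card * d ≤ D * d := by
    calc s.card * d = ∑ _b ∈ s, d := by rw [Finset.sum_const, smul_eq_mul]
      _ ≤ ∑ b ∈ s, (T b).card := Finset.sum_le_sum fun b hb => hT1 b hb
      _ = (s.biUnion T).card := (Finset.card_biUnion hdis).symm
      _ ≤ Fintype.card α := Finset.card_le_univ _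
      _ ≤ D * d := hD
  exact Nat.le_of_mul_le_mul_right h1 hd

end CH
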