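import Pool.Agent.CH.FoolCase91
import Pool.Agent.CH.ProperCol75
import Pool.Agent.CH.Proper75

/-! MP_d8d446_co, helper module: the density bound in the bipartite form, colourings that need
not be proper. -/

set_option autoImplicit false

open Finset

namespace CH

theorem fool_case (K δ : ℝ) (hK : 1 ≤ K) (hδ : 0 < δ) : ∃ n₀ : ℕ, ∀ n ≥ n₀,
    ∀ {α β γ : Type} [Fintype α] [Fintype β] [Fintype γ] [DecidableEq α] [DecidableEq β]
      [DecidableEq γ] (R : α → β → Prop) (col : α → β → γ), Fintype.card α ≤ n →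
      Fintype.card β ≤ n → (Fintype.card γ : ℝ) ≤ K * n → Fool R col →
      ∑ a, ∑ b, ind R a b ≤ (Fintype.card α : ℝ) * Fintype.card β / 2 + δ * (n : ℝ) ^ 2 := by
  classical
  set D : ℕ := ⌈8 / δ⌉₊ with hDdef
  have hD8 : 8 / δ ≤ (D : ℝ) := Nat.le_ceil _
  have hDpos : 0 < (D : ℝ) := lt_of_lt_of_le (by positivity) hD8
  have hD1 : 1 ≤ D := by exact_mod_cast hDpos
  have hD1' : (1 : ℝ) ≤ (D : ℝ) := by exact_mod_cast hD1
  have hKD : 1 ≤ K * (D : ℝ) ^ 2 := by nlinarith [one_le_pow₀ hD1' (n := 2)]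
  obtain ⟨n₁, hn₁⟩ := proper_case (K * (D : ℝ) ^ 2) (δ / 2) hKD (by linarith)
  refine ⟨max n₁ (⌈16 / δ⌉₊), ?_⟩
  intro n hn α β γ _ _ _ _ _ _ R col hα hβ hγ h
  have hn1 : n₁ ≤ n := le_trans (le_max_left _ _) hn
  have hn2 : 16 / δ ≤ (n : ℝ) :=
    (Nat.le_ceil _).trans (by exact_mod_cast le_trans (le_max_right _ _) hn)
  have hn3 : 16 ≤ δ * n := by
    rw [div_le_iff₀ hδ] at hn2
    linarith
  set d : ℕ := ⌊δ * n / 4⌋₊ with hddef
  have hd1 : (d : ℝ) ≤ δ * n / 4 := Nat.floor_le (by positivity)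
  have hd2 : δ * n / 4 < (d : ℝ) + 1 := Nat.lt_floor_add_one _
  have hd : 1 ≤ d := by
    apply Nat.le_floor
    push_cast
    linarith
  have hnD : n ≤ D * d := by
    have h1 : (n : ℝ) ≤ D * d := by
      have h2 : (3 : ℝ) ≤ d := by linarith
      have h3 : 8 / δ * (δ * n / 4 - 1) ≤ (D : ℝ) * d :=
        mul_le_mul hD8 (by linarith) (by linarith) hDpos.le
      have h4 : 8 / δ * (δ * n / 4 - 1) = 2 * n - 8 / δ := by
        field_simp
        ring
      have h5 : 8 / δ ≤ 16 / δ := by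
        apply div_le_div_of_nonneg_right _ hδ.le
        norm_num
      linarith
    exact_mod_cast h1
  set R' : α → β → Prop := fun a b => R a b ∧ d + 1 ≤ {b : β | R a b}.ncard ∧
    d + 1 ≤ {a : α | R a b}.ncard with hR'
  obtain ⟨D', hD'⟩ : ∃ D' : ℕ, D = D' + 1 := ⟨D - 1, by omega⟩
  have hl : ∀ a c (s : Finset β), (∀ b ∈ s, R' a b ∧ col a b = c) → s.card ≤ D := by
    intro a c s hs
    refine few_at h hd (hα.trans hnD) a c s (fun b hb => ⟨(hs b hb).1.1, (hs b hb).2⟩) ?_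
    intro b hb
    refine ⟨{a : α | R a b}.toFinset, ?_, ?_⟩
    · rw [← Set.ncard_eq_toFinset_card']
      exact (hs b hb).1.2.2
    · intro a' ha'
      simpa using ha'
  have hsw : Fool (fun b a => R a b) (fun b a => col a b) :=
    ⟨fun b a a' hne h1 h2 hc b' h3 h4 => h.right a a' b hne h1 h2 hc b' h3 h4,
      fun b b' a hne h1 h2 hc a' h3 h4 => h.left a b b' hne h1 h2 hc a' h3 h4,
      fun b b' a a' hb ha h1 h2 hc h3 => h.fool a a' b b' ha hb h1 h2 hc ⟨h3.2, h3.1⟩⟩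
  have hr : ∀ b c (s : Finset α), (∀ a ∈ s, R' a b ∧ col a b = c) → s.card ≤ D := by
    intro b c s hs
    refine few_at hsw hd (hβ.trans hnD) b c s (fun a ha => ⟨(hs a ha).1.1, (hs a ha).2⟩) ?_
    intro a ha
    refine ⟨{b : β | R a b}.toFinset, ?_, ?_⟩
    · rw [← Set.ncard_eq_toFinset_card']
      exact (hs a ha).1.2.1
    · intro b' hb'
      simpa using hb'
  obtain ⟨col', hg⟩ := to_proper (D := D') h (R' := R') (fun a b h1 => h1.1)
    (fun a c s hs => hD' ▸ hl a c s hs) (fun b c s hs => hD' ▸ hr b c s hs)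
  have hcard : (Fintype.card (γ × Fin (D' + 1) × Fin (D' + 1)) : ℝ) ≤ K * (D : ℝ) ^ 2 * n := by
    rw [Fintype.card_prod, Fintype.card_prod, Fintype.card_fin, ← hD']
    push_cast
    have h1 : (Fintype.card γ : ℝ) * ((D : ℝ) * D) ≤ K * n * ((D : ℝ) * D) :=
      mul_le_mul_of_nonneg_right hγ (by positivity)
    nlinarith
  have h1 := hn₁ n hn1 R' col' hα hβ hcard hg
  have h2 := lost91 R d n hα hβ
  have h3 : 2 * (n : ℝ) * d ≤ δ / 2 * (n : ℝ) ^ 2 := by
    have h4 : (n : ℝ) * d ≤ n * (δ * n / 4) :=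
      mul_le_mul_of_nonneg_left hd1 (Nat.cast_nonneg n)
    nlinarith
  have h5 : ∑ a, ∑ b, ind R a b ≤ ∑ a, ∑ b, ind R' a b + 2 * (n : ℝ) * d := h2
  nlinarith

end CH
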