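import Pool.Agent.CH.Defs

/-! MP_d8d446_co, helper module: few edges are lost when the edges at vertices of small degree are
removed. -/

set_option autoImplicit false

open Finset

namespace CH

section Lost

variable {α β : Type} [Fintype α] [Fintype β]

theorem sum_low91 (R : α → β → Prop) (d : ℕ) : ∑ a, ∑ b,
    ind (fun a b => R a b ∧ {b : β | R a b}.ncard ≤ d) a b ≤ (Fintype.card α : ℝ) * d := by
  classical
  calc ∑ a, ∑ b, ind (fun a b => R a b ∧ {b : β | R a b}.ncard ≤ d) a b ≤ ∑ _a : α, (d : ℝ) := by
        apply Finset.sum_le_sum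
        intro a _
        by_cases h : {b : β | R a b}.ncard ≤ d
        · have h1 : ∑ b, ind (fun a b => R a b ∧ {b : β | R a b}.ncard ≤ d) a b =
              ((univ.filter fun b => R a b).card : ℝ) := by
            rw [Finset.card_filter]
            push_cast
            apply Finset.sum_congr rfl
            intro b _
            by_cases hb : R a b
            · rw [ind_of ⟨hb, h⟩, if_pos hb]
            · rw [ind_of_not (fun h2 => hb h2.1), if_neg hb]
          rw [h1]
          have h2 : {b : β | R a b}.ncard = (univ.filter fun b => R a b).card := by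
            rw [← Set.ncard_coe_finset]
            congr 1
            ext b
            simp
          rw [h2] at h
          exact_mod_cast h
        · have h1 : ∑ b, ind (fun a b => R a b ∧ {b : β | R a b}.ncard ≤ d) a b = 0 := by
            apply Finset.sum_eq_zero
            intro b _
            exact ind_of_not (fun h2 => h h2.2)
          rw [h1]
          exact Nat.cast_nonneg d
    _ = (Fintype.card α : ℝ) * d := by
        rw [Finset.sum_const, Finset.card_univ, nsmul_eq_mul]

theorem lost91 (R : α → β → Prop) (d n : ℕ) (hα : Fintype.card α ≤ n) (hβ : Fintype.card β ≤ n) :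
    ∑ a, ∑ b, ind R a b ≤ ∑ a, ∑ b, ind (fun a b => R a b ∧ d + 1 ≤ {b : β | R a b}.ncard ∧
      d + 1 ≤ {a : α | R a b}.ncard) a b + 2 * (n : ℝ) * d := by
  have h1 := sum_low91 R d
  have h2 := sum_low91 (fun b a => R a b) d
  rw [Finset.sum_comm] at h2
  have h3 : ∑ a, ∑ b, ind R a b ≤ ∑ a, ∑ b, (ind (fun a b => R a b ∧
      d + 1 ≤ {b : β | R a b}.ncard ∧ d + 1 ≤ {a : α | R a b}.ncard) a b +
      ind (fun a b => R a b ∧ {b : β | R a b}.ncard ≤ d) a b +
      ind (fun b a => R a b ∧ {a : α | R a b}.ncard ≤ d) b a) := by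
    apply Finset.sum_le_sum
    intro a _
    apply Finset.sum_le_sum
    intro b _
    have p1 := ind_nonneg (fun a b => R a b ∧
      d + 1 ≤ {b : β | R a b}.ncard ∧ d + 1 ≤ {a : α | R a b}.ncard) a b
    have p2 := ind_nonneg (fun a b => R a b ∧ {b : β | R a b}.ncard ≤ d) a b
    have p3 := ind_nonneg (fun b a => R a b ∧ {a : α | R a b}.ncard ≤ d) b a
    by_cases hab : R a b
    · rw [ind_of hab]
      by_cases ha : {b : β | R a b}.ncard ≤ d
      · have p4 : ind (fun a b => R a b ∧ {b : β | R a b}.ncard ≤ d) a b = 1 := ind_of ⟨hab, ha⟩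
        rw [p4]
        linarith
      · by_cases hb : {a : α | R a b}.ncard ≤ d
        · have p4 : ind (fun b a => R a b ∧ {a : α | R a b}.ncard ≤ d) b a = 1 := ind_of ⟨hab, hb⟩
          rw [p4]
          linarith
        · have p4 : ind (fun a b => R a b ∧
              d + 1 ≤ {b : β | R a b}.ncard ∧ d + 1 ≤ {a : α | R a b}.ncard) a b = 1 :=
            ind_of ⟨hab, by omega, by omega⟩
          rw [p4]
          linarith
    · rw [ind_of_not hab]
      linarith
  have h4 : ∑ a, ∑ b, (ind (fun a b => R a b ∧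
      d + 1 ≤ {b : β | R a b}.ncard ∧ d + 1 ≤ {a : α | R a b}.ncard) a b +
      ind (fun a b => R a b ∧ {b : β | R a b}.ncard ≤ d) a b +
      ind (fun b a => R a b ∧ {a : α | R a b}.ncard ≤ d) b a) =
      ∑ a, ∑ b, ind (fun a b => R a b ∧ d + 1 ≤ {b : β | R a b}.ncard ∧
        d + 1 ≤ {a : α | R a b}.ncard) a b +
      ∑ a, ∑ b, ind (fun a b => R a b ∧ {b : β | R a b}.ncard ≤ d) a b +
      ∑ a, ∑ b, ind (fun b a => R a b ∧ {a : α | R a b}.ncard ≤ d) b a := by
    simp only [Finset.sum_add_distrib]
  rw [h4] at h3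
  have h5 : (Fintype.card α : ℝ) * d ≤ n * d :=
    mul_le_mul_of_nonneg_right (by exact_mod_cast hα) (Nat.cast_nonneg d)
  have h6 : (Fintype.card β : ℝ) * d ≤ n * d :=
    mul_le_mul_of_nonneg_right (by exact_mod_cast hβ) (Nat.cast_nonneg d)
  linarith

end Lost

end CH
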