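import Pool.Agent.CH.FoolCase75
import Pool.Prelude.Def_F_17ede623

/-! MP_d8d446_co, helper module: the density bound for graphs. -/

set_option autoImplicit false

open Finset N2633a9ba

namespace CH

/-- from a graph with rainbow four-cycles to the bipartite form -/
theorem fool_of {n m : ℕ} {G : SimpleGraph (Fin n)} {color : Fin n → Fin n → Fin m}
    (hs : ∀ a b, G.Adj a b → color a b = color b a)
    (hc : ∀ a b c d, IsC4 G a b c d →
      PairwiseDistinct4 (color a b) (color b c) (color c d) (color d a)) (A B : Finset (Fin n)) :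
    Fool (fun (a : A) (b : B) => G.Adj a.1 b.1) (fun a b => color a.1 b.1) where
  left := by
    rintro ⟨a, ha⟩ ⟨b, hb⟩ ⟨b', hb'⟩ hbb h1 h2 hcol ⟨a', ha'⟩ h3 h4
    simp only at h1 h2 hcol h3 h4
    by_contra hne
    have hne' : a ≠ a' := fun h => hne (Subtype.ext h.symm)
    have hbb' : b ≠ b' := fun h => hbb (Subtype.ext h)
    have h := hc b a b' a' ⟨⟨h1.ne', hbb', h3.ne', h2.ne, hne', h4.ne'⟩, h1.symm, h2, h4.symm, h3⟩
    exact h.1 (by rw [← hs a b h1, hcol])
  right := by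
    rintro ⟨a, ha⟩ ⟨a', ha'⟩ ⟨b, hb⟩ haa h1 h2 hcol ⟨b', hb'⟩ h3 h4
    simp only at h1 h2 hcol h3 h4
    by_contra hne
    have hne' : b ≠ b' := fun h => hne (Subtype.ext h.symm)
    have haa' : a ≠ a' := fun h => haa (Subtype.ext h)
    have h := hc a b a' b' ⟨⟨h1.ne, haa', h3.ne, h2.ne', hne', h4.ne⟩, h1, h2.symm, h4, h3.symm⟩
    exact h.1 (by rw [← hs a' b h2, hcol])
  fool := by
    rintro ⟨a, ha⟩ ⟨a', ha'⟩ ⟨b, hb⟩ ⟨b', hb'⟩ haa hbb h1 h2 hcol ⟨h3, h4⟩
    simp only at h1 h2 hcol h3 h4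
    have haa' : a ≠ a' := fun h => haa (Subtype.ext h)
    have hbb' : b ≠ b' := fun h => hbb (Subtype.ext h)
    have h := hc a b a' b' ⟨⟨h1.ne, haa', h3.ne, h4.ne', hbb', h2.ne⟩, h1, h4.symm, h2, h3.symm⟩
    exact h.2.1 hcol

open Classical in
theorem card_filter_adj {n : ℕ} (G : SimpleGraph (Fin n)) (A B : Finset (Fin n)) :
    (((A ×ˢ B).filter fun e => G.Adj e.1 e.2).card : ℝ) =
      ∑ a : A, ∑ b : B, ind (fun (a : A) (b : B) => G.Adj a.1 b.1) a b := by
  rw [Finset.card_filter]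
  push_cast
  rw [Finset.sum_product]
  rw [← Finset.sum_coe_sort A]
  refine Finset.sum_congr rfl fun a _ => ?_
  rw [← Finset.sum_coe_sort B]
  refine Finset.sum_congr rfl fun b _ => ?_
  by_cases h : G.Adj a.1 b.1
  · exact (if_pos h).trans (ind_of (R := fun (a : A) (b : B) => G.Adj a.1 b.1) h).symm
  · exact (if_neg h).trans (ind_of_not (R := fun (a : A) (b : B) => G.Adj a.1 b.1) h).symm

open Classical in
/-- twice the number of edges -/
theorem two_mul_edges {n : ℕ} (G : SimpleGraph (Fin n)) :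
    (((univ : Finset (Fin n)) ×ˢ (univ : Finset (Fin n))).filter
      fun e => G.Adj e.1 e.2).card = 2 * G.edgeSet.ncard := by
  have h1 : G.edgeSet.ncard = G.edgeFinset.card := by
    rw [← SimpleGraph.coe_edgeFinset, Set.ncard_coe_finset]
  rw [h1, ← SimpleGraph.sum_degrees_eq_twice_card_edges, Finset.card_filter, Finset.sum_product]
  refine Finset.sum_congr rfl fun a _ => ?_
  rw [← SimpleGraph.card_neighborFinset_eq_degree, ← Finset.card_filter]
  congr 1
  ext b
  simp

open Classical in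
theorem half (K δ : ℝ) (hδ : 0 < δ) : ∃ n₀ : ℕ, ∀ n ≥ n₀, ∀ (m : ℕ) (G : SimpleGraph (Fin n))
    (color : Fin n → Fin n → Fin m), (m : ℝ) ≤ K * n →
    (∀ a b, G.Adj a b → color a b = color b a) →
    (∀ a b c d, IsC4 G a b c d →
      PairwiseDistinct4 (color a b) (color b c) (color c d) (color d a)) →
    (∀ A B : Finset (Fin n), (((A ×ˢ B).filter fun e => G.Adj e.1 e.2).card : ℝ) ≤
      (A.card : ℝ) * B.card / 2 + δ * (n : ℝ) ^ 2) ∧
    (G.edgeSet.ncard : ℝ) ≤ (1 / 4 + δ) * (n : ℝ) ^ 2 := by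
  obtain ⟨n₀, hn₀⟩ := fool_case (max K 1) δ (le_max_right _ _) hδ
  refine ⟨n₀, fun n hn m G color hm hs hc => ?_⟩
  have hAB : ∀ A B : Finset (Fin n), (((A ×ˢ B).filter fun e => G.Adj e.1 e.2).card : ℝ) ≤
      (A.card : ℝ) * B.card / 2 + δ * (n : ℝ) ^ 2 := by
    intro A B
    have hA : Fintype.card A ≤ n := by
      rw [Fintype.card_coe]; simpa using Finset.card_le_univ A
    have hB : Fintype.card B ≤ n := by
      rw [Fintype.card_coe]; simpa using Finset.card_le_univ B
    have hγ : (Fintype.card (Fin m) : ℝ) ≤ max K 1 * n := by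
      rw [Fintype.card_fin]
      exact hm.trans (mul_le_mul_of_nonneg_right (le_max_left _ _) (Nat.cast_nonneg _))
    have h := hn₀ n hn (fun (a : A) (b : B) => G.Adj a.1 b.1) (fun a b => color a.1 b.1)
      hA hB hγ (fool_of hs hc A B)
    rw [card_filter_adj]
    rw [Fintype.card_coe, Fintype.card_coe] at h
    exact h
  refine ⟨hAB, ?_⟩
  have h := hAB univ univ
  rw [two_mul_edges] at h
  simp only [Finset.card_univ, Fintype.card_fin] at h
  push_cast at h
  have h0 : 0 ≤ δ * (n : ℝ) ^ 2 := by positivity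
  nlinarith

end CH
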