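import Pool.Agent.CH.Energy75

/-! MP_d8d446_co, helper module: one sided strong regularity by energy increment. -/

set_option autoImplicit false

open Finset

namespace CH

variable {α β : Type} [Fintype α] [Fintype β]

/-- the energy is at most `n ^ 2` -/
theorem en_le66 {p : α → ℕ} {G : α → β → ℝ} {n : ℕ} (h0 : ∀ a b, 0 ≤ G a b)
    (h1 : ∀ a b, G a b ≤ 1) (hα : Fintype.card α ≤ n) (hβ : Fintype.card β ≤ n) :
    en p G ≤ (n : ℝ) ^ 2 := by
  have h2 : ∀ a b, avg p G a b ^ 2 ≤ 1 := by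
    intro a b
    have h3 := avg_nonneg h0 (p := p) a b
    have h4 := avg_le_one h1 (p := p) a b
    nlinarith
  have h5 : en p G ≤ ∑ _a : α, ∑ _b : β, (1 : ℝ) :=
    sum_le_sum fun a _ => sum_le_sum fun b _ => h2 a b
  have h6 : ∑ _a : α, ∑ _b : β, (1 : ℝ) = (Fintype.card α : ℝ) * (Fintype.card β : ℝ) := by
    simp
  have h7 : (Fintype.card α : ℝ) ≤ n := by exact_mod_cast hα
  have h8 : (Fintype.card β : ℝ) ≤ n := by exact_mod_cast hβ
  have h9 : (0 : ℝ) ≤ (Fintype.card α : ℝ) := by positivity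
  have h10 : (0 : ℝ) ≤ (Fintype.card β : ℝ) := by positivity
  rw [h6] at h5
  nlinarith

theorem en_nonneg66 (p : α → ℕ) (G : α → β → ℝ) : 0 ≤ en p G :=
  sum_nonneg fun _ _ => sum_nonneg fun _ _ => sq_nonneg _

/-- one step: energy increment -/
theorem reg_step {p : α → ℕ} {G : α → β → ℝ} {n : ℕ} (hα : Fintype.card α ≤ n)
    (hβ : Fintype.card β ≤ n) {e : ℝ} (he : 0 < e) {X : Finset α} {Y : Finset β}
    (h : e * (n : ℝ) ^ 2 < ∑ a ∈ X, ∑ b ∈ Y, (avg p G a b - G a b)) :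
    ∃ p' : α → ℕ, Ref p' p ∧ (univ.image p').card ≤ 2 * (univ.image p).card ∧
      en p G + e ^ 2 * (n : ℝ) ^ 2 ≤ en p' G := by
  classical
  obtain ⟨p', hp'⟩ : ∃ p' : α → ℕ, ∀ a, p' a = 2 * p a + (if a ∈ X then 1 else 0) :=
    ⟨_, fun a => rfl⟩
  have hlt : ∀ a, (if a ∈ X then 1 else 0) < 2 := by
    intro a
    split_ifs <;> omega
  have href : Ref p' p := by
    intro a a' h1
    rw [hp', hp'] at h1
    have h2 := hlt a
    have h3 := hlt a'
    omega
  have hX : ∀ a a', p' a = p' a' → a ∈ X → a' ∈ X := by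
    intro a a' h1 h2
    have h3 := href a a' h1
    rw [hp', hp', if_pos h2] at h1
    by_contra h4
    rw [if_neg h4] at h1
    omega
  refine ⟨p', href, ?_, ?_⟩
  · have h1 : univ.image p' ⊆ ((univ.image p) ×ˢ (range 2)).image (fun q => 2 * q.1 + q.2) := by
      intro x hx
      obtain ⟨a, _, rfl⟩ := mem_image.1 hx
      refine mem_image.2 ⟨(p a, if a ∈ X then 1 else 0), ?_, (hp' a).symm⟩
      rw [mem_product]
      exact ⟨mem_image_of_mem _ (mem_univ a), mem_range.2 (hlt a)⟩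
    calc (univ.image p').card ≤ _ := card_le_card h1
      _ ≤ ((univ.image p) ×ˢ (range 2)).card := card_image_le
      _ = 2 * (univ.image p).card := by rw [card_product, card_range, mul_comm]
  · have hn : 0 < n := by
      rcases Nat.eq_zero_or_pos n with h0 | h0
      · exfalso
        have h1 : Fintype.card α = 0 := by omega
        have h2 : IsEmpty α := Fintype.card_eq_zero_iff.1 h1
        have h3 : X = ∅ := by
          apply eq_empty_of_forall_notMem
          intro a _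
          exact h2.elim a
        rw [h3, h0] at h
        simp at h
      · exact h0
    have h1 : ∑ a ∈ X, ∑ b ∈ Y, (avg p G a b - G a b) =
        ∑ q ∈ X ×ˢ Y, (avg p G q.1 q.2 - avg p' G q.1 q.2) := by
      rw [sum_product]
      simp only [sum_sub_distrib]
      rw [sum_avg hX Y]
    have h2 : (∑ q ∈ X ×ˢ Y, (avg p G q.1 q.2 - avg p' G q.1 q.2)) ^ 2 ≤
        ((X ×ˢ Y).card : ℝ) * ∑ q ∈ X ×ˢ Y, (avg p G q.1 q.2 - avg p' G q.1 q.2) ^ 2 :=
      sq_sum_le_card_mul_sum_sq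
    have h3 : ∑ q ∈ X ×ˢ Y, (avg p G q.1 q.2 - avg p' G q.1 q.2) ^ 2 ≤ en p' G - en p G := by
      rw [← pyth href G, ← Fintype.sum_prod_type']
      calc ∑ q ∈ X ×ˢ Y, (avg p G q.1 q.2 - avg p' G q.1 q.2) ^ 2
          ≤ ∑ q : α × β, (avg p G q.1 q.2 - avg p' G q.1 q.2) ^ 2 :=
            sum_le_univ_sum_of_nonneg fun q => sq_nonneg _
        _ = ∑ q : α × β, (avg p' G q.1 q.2 - avg p G q.1 q.2) ^ 2 := by
            apply sum_congr rfl
            intro q _
            ring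
    have h4 : ((X ×ˢ Y).card : ℝ) ≤ (n : ℝ) ^ 2 := by
      rw [card_product]
      have h5 : X.card ≤ n := (card_le_univ X).trans hα
      have h6 : Y.card ≤ n := (card_le_univ Y).trans hβ
      have h7 : X.card * Y.card ≤ n * n := Nat.mul_le_mul h5 h6
      have h8 : ((X.card * Y.card : ℕ) : ℝ) ≤ ((n * n : ℕ) : ℝ) := by exact_mod_cast h7
      rw [sq]
      push_cast at h8 ⊢
      exact h8
    have hn1 : (0 : ℝ) < (n : ℝ) ^ 2 := by positivity
    have h5 : 0 ≤ en p' G - en p G := by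
      rw [← pyth href G]
      exact sum_nonneg fun _ _ => sum_nonneg fun _ _ => sq_nonneg _
    rw [h1] at h
    have h6 : (e * (n : ℝ) ^ 2) ^ 2 < (n : ℝ) ^ 2 * (en p' G - en p G) := by
      have h7 : (e * (n : ℝ) ^ 2) ^ 2 <
          (∑ q ∈ X ×ˢ Y, (avg p G q.1 q.2 - avg p' G q.1 q.2)) ^ 2 :=
        pow_lt_pow_left₀ h (by positivity) (by norm_num)
      have h8 : ((X ×ˢ Y).card : ℝ) * ∑ q ∈ X ×ˢ Y, (avg p G q.1 q.2 - avg p' G q.1 q.2) ^ 2 ≤
          (n : ℝ) ^ 2 * (en p' G - en p G) :=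
        mul_le_mul h4 h3 (sum_nonneg fun _ _ => sq_nonneg _) hn1.le
      linarith
    have h9 : e ^ 2 * (n : ℝ) ^ 2 < en p' G - en p G := by
      have h10 : (n : ℝ) ^ 2 * (e ^ 2 * (n : ℝ) ^ 2) < (n : ℝ) ^ 2 * (en p' G - en p G) := by
        calc (n : ℝ) ^ 2 * (e ^ 2 * (n : ℝ) ^ 2) = (e * (n : ℝ) ^ 2) ^ 2 := by ring
          _ < _ := h6
      exact lt_of_mul_lt_mul_left h10 hn1.le
    linarith

omit [Fintype α] in
theorem Ref.refl66 (p : α → ℕ) : Ref p p := fun _ _ h => h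

omit [Fintype α] in
theorem Ref.trans66 {p q r : α → ℕ} (h : Ref p q) (h' : Ref q r) : Ref p r :=
  fun a a' h1 => h' a a' (h a a' h1)

/-- `j` steps: a regular refinement or a large increase of the energy -/
theorem reg_steps66 {G : α → β → ℝ} {n : ℕ} (hα : Fintype.card α ≤ n)
    (hβ : Fintype.card β ≤ n) {e : ℝ} (he : 0 < e) (p : α → ℕ) : ∀ j : ℕ,
    (∃ p' : α → ℕ, Ref p' p ∧ (univ.image p').card ≤ 2 ^ j * (univ.image p).card ∧
      ∀ (X : Finset α) (Y : Finset β),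
        ∑ a ∈ X, ∑ b ∈ Y, (avg p' G a b - G a b) ≤ e * (n : ℝ) ^ 2) ∨
    ∃ p' : α → ℕ, Ref p' p ∧ (univ.image p').card ≤ 2 ^ j * (univ.image p).card ∧
      en p G + j * (e ^ 2 * (n : ℝ) ^ 2) ≤ en p' G
  | 0 => Or.inr ⟨p, Ref.refl66 p, by simp, by simp⟩
  | j + 1 => by
      rcases reg_steps66 (G := G) hα hβ he p j with ⟨p', h1, h2, h3⟩ | ⟨p', h1, h2, h3⟩
      · refine Or.inl ⟨p', h1, h2.trans ?_, h3⟩
        exact Nat.mul_le_mul_right _ (Nat.pow_le_pow_right (by norm_num) (by omega))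
      · by_cases hreg : ∀ (X : Finset α) (Y : Finset β),
            ∑ a ∈ X, ∑ b ∈ Y, (avg p' G a b - G a b) ≤ e * (n : ℝ) ^ 2
        · refine Or.inl ⟨p', h1, h2.trans ?_, hreg⟩
          exact Nat.mul_le_mul_right _ (Nat.pow_le_pow_right (by norm_num) (by omega))
        · push Not at hreg
          obtain ⟨X, Y, h4⟩ := hreg
          obtain ⟨q, h5, h6, h7⟩ := reg_step hα hβ he h4
          refine Or.inr ⟨q, h5.trans66 h1, ?_, ?_⟩
          · calc (univ.image q).card ≤ 2 * (univ.image p').card := h6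
              _ ≤ 2 * (2 ^ j * (univ.image p).card) := Nat.mul_le_mul_left 2 h2
              _ = 2 ^ (j + 1) * (univ.image p).card := by ring
          · push_cast
            linarith

/-- number of steps for the precision `e` -/
noncomputable def st66 (e : ℝ) : ℕ := ⌈1 / e ^ 2⌉₊ + 1

theorem st66_lt {e : ℝ} (he : 0 < e) : 1 < (st66 e : ℝ) * e ^ 2 := by
  have h1 : 1 / e ^ 2 ≤ (⌈1 / e ^ 2⌉₊ : ℝ) := Nat.le_ceil _
  have h2 : (0 : ℝ) < e ^ 2 := by positivity
  unfold st66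
  push_cast
  rw [div_le_iff₀ h2] at h1
  linarith

/-- regular refinement -/
theorem reg66 {G : α → β → ℝ} {n : ℕ} (h0 : ∀ a b, 0 ≤ G a b)
    (h1 : ∀ a b, G a b ≤ 1) (hα : Fintype.card α ≤ n)
    (hβ : Fintype.card β ≤ n) {e : ℝ} (he : 0 < e) (p : α → ℕ) :
    ∃ p' : α → ℕ, Ref p' p ∧ (univ.image p').card ≤ 2 ^ st66 e * (univ.image p).card ∧
      ∀ (X : Finset α) (Y : Finset β),
        ∑ a ∈ X, ∑ b ∈ Y, (avg p' G a b - G a b) ≤ e * (n : ℝ) ^ 2 := by
  rcases reg_steps66 (G := G) hα hβ he p (st66 e) with h2 | ⟨p', h2, h3, h4⟩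
  · exact h2
  · refine ⟨p', h2, h3, ?_⟩
    rcases Nat.eq_zero_or_pos n with hn | hn
    · intro X Y
      have h5 : Fintype.card α = 0 := by omega
      have h6 : IsEmpty α := Fintype.card_eq_zero_iff.1 h5
      have h7 : X = ∅ := by
        apply eq_empty_of_forall_notMem
        intro a _
        exact h6.elim a
      rw [h7, hn]
      simp
    · exfalso
      have h5 := en_le66 (p := p') h0 h1 hα hβ
      have h6 := en_nonneg66 p G
      have h7 := st66_lt he
      have h8 : (0 : ℝ) < (n : ℝ) ^ 2 := by positivity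
      have h9 : (st66 e : ℝ) * (e ^ 2 * (n : ℝ) ^ 2) = (st66 e : ℝ) * e ^ 2 * (n : ℝ) ^ 2 := by
        ring
      rw [h9] at h4
      nlinarith

/-- numbers of parts -/
noncomputable def kk66 (e' : ℕ → ℝ) : ℕ → ℕ
  | 0 => 1
  | j + 1 => 2 ^ st66 (e' (kk66 e' j)) * kk66 e' j

theorem kk66_pos (e' : ℕ → ℝ) : ∀ j, 1 ≤ kk66 e' j
  | 0 => le_refl 1
  | j + 1 => by
      have h1 := kk66_pos e' j
      show 0 < 2 ^ st66 (e' (kk66 e' j)) * kk66 e' j
      positivity

theorem kk66_mono (e' : ℕ → ℝ) : Monotone (kk66 e') := by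
  apply monotone_nat_of_le_succ
  intro j
  show kk66 e' j ≤ 2 ^ st66 (e' (kk66 e' j)) * kk66 e' j
  exact Nat.le_mul_of_pos_left _ (by positivity)

/-- strong regularity for one side -/
theorem strong_reg (e' : ℕ → ℝ) (he' : ∀ k, 0 < e' k) {η : ℝ} (hη : 0 < η) :
    ∃ M : ℕ, ∀ {α β : Type} [Fintype α] [Fintype β]
      (G : α → β → ℝ) (n : ℕ), (∀ a b, 0 ≤ G a b) → (∀ a b, G a b ≤ 1) →
      Fintype.card α ≤ n → Fintype.card β ≤ n →
      ∃ k ≤ M, ∃ p p' : α → ℕ, 1 ≤ k ∧ Ref p' p ∧ (univ.image p).card ≤ k ∧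
        en p' G - en p G ≤ η * (n : ℝ) ^ 2 ∧
        ∀ (X : Finset α) (Y : Finset β),
          ∑ a ∈ X, ∑ b ∈ Y, (avg p' G a b - G a b) ≤ e' k * (n : ℝ) ^ 2 := by
  obtain ⟨J, hJ⟩ : ∃ J : ℕ, 1 < (J : ℝ) * η := by
    obtain ⟨J, hJ⟩ := exists_nat_gt (1 / η)
    refine ⟨J, ?_⟩
    rwa [div_lt_iff₀ hη] at hJ
  refine ⟨kk66 e' J, ?_⟩
  intro α β _ _ G n h0 h1 hα hβ
  have key : ∀ j : ℕ, (∃ k ≤ kk66 e' j, ∃ p p' : α → ℕ, 1 ≤ k ∧ Ref p' p ∧
      (univ.image p).card ≤ k ∧ en p' G - en p G ≤ η * (n : ℝ) ^ 2 ∧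
        ∀ (X : Finset α) (Y : Finset β),
          ∑ a ∈ X, ∑ b ∈ Y, (avg p' G a b - G a b) ≤ e' k * (n : ℝ) ^ 2) ∨
      ∃ p : α → ℕ, (univ.image p).card ≤ kk66 e' j ∧ (j : ℝ) * (η * (n : ℝ) ^ 2) ≤ en p G := by
    intro j
    induction j with
    | zero =>
      right
      refine ⟨fun _ => 0, ?_, ?_⟩
      · calc (univ.image fun _ : α => 0).card ≤ ({0} : Finset ℕ).card := by
              apply card_le_card
              intro x hx
              obtain ⟨a, _, rfl⟩ := mem_image.1 hx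
              simp
          _ ≤ kk66 e' 0 := le_refl 1
      · simpa using en_nonneg66 (fun _ => 0) G
    | succ j ih =>
      rcases ih with ⟨k, hk, h2⟩ | ⟨p, h2, h3⟩
      · exact Or.inl ⟨k, hk.trans (kk66_mono e' (Nat.le_succ j)), h2⟩
      · obtain ⟨p', h4, h5, h6⟩ := reg66 h0 h1 hα hβ (he' (kk66 e' j)) p
        by_cases h7 : en p' G - en p G ≤ η * (n : ℝ) ^ 2
        · exact Or.inl ⟨kk66 e' j, kk66_mono e' (Nat.le_succ j), p, p', kk66_pos e' j, h4, h2,
            h7, h6⟩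
        · right
          refine ⟨p', h5.trans ?_, ?_⟩
          · exact Nat.mul_le_mul_left _ h2
          · push_cast
            linarith
  rcases key J with h2 | ⟨p, _, h2⟩
  · exact h2
  · have h3 := en_le66 (p := p) h0 h1 hα hβ
    rcases Nat.eq_zero_or_pos n with hn | hn
    · refine ⟨1, kk66_pos e' J, p, p, le_refl 1, Ref.refl66 p, ?_, ?_, ?_⟩
      · have h5 : Fintype.card α = 0 := by omega
        calc (univ.image p).card ≤ (univ : Finset α).card := card_image_le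
          _ ≤ 1 := by rw [card_univ, h5]; omega
      · rw [sub_self]
        positivity
      · intro X Y
        have h5 : Fintype.card α = 0 := by omega
        have h6 : IsEmpty α := Fintype.card_eq_zero_iff.1 h5
        have h7 : X = ∅ := by
          apply eq_empty_of_forall_notMem
          intro a _
          exact h6.elim a
        rw [h7, hn]
        simp
    · exfalso
      have h8 : (0 : ℝ) < (n : ℝ) ^ 2 := by positivity
      have h9 : (J : ℝ) * (η * (n : ℝ) ^ 2) = (J : ℝ) * η * (n : ℝ) ^ 2 := by ring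
      rw [h9] at h2
      nlinarith

end CH
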